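import Pool.Agent.H304R3.HK.BbSh
import Pool.Agent.W354.PK.Defs

/-!
The character modulo `2 + 2 i` of the curve `y² = x³ - x`.
-/

open Complex Filter Topology Set

namespace Pool.Agent.W354.HW

open Pool.Agent.H304R3.HK (tc bb CS)
open Pool.Agent.H304R3.HK.M1 (CG)
open Pool.Agent.H304R2.EC.A1 (Q prim prim_iff re_mul' im_mul' isCoprime_of_norm norm_def')
open Pool.Agent.W354.PK (HCk psik bK tc_mul)

/-- the unit `u` with `u z ≡ 1 (mod 2 + 2 i)`, or `0` -/
def gE (a b : ZMod 4) : GaussianInt :=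
  if Q a b then 1 else if Q (-a) (-b) then -1 else if Q (-b) a then ⟨0, 1⟩ else
    if Q b (-a) then ⟨0, -1⟩ else 0

theorem gE_mul : ∀ a b c d : ZMod 4, gE (a * c - b * d) (a * d + b * c) = gE a b * gE c d := by
  decide +kernel

theorem gE_add : ∀ a b t : ZMod 4, gE (a + 2 * t) (b + 2 * t) = gE a b := by
  decide +kernel

theorem gE_ne : ∀ a b : ZMod 4, gE a b ≠ 0 ↔ (a + b = 1 ∨ a + b = 3) := by
  decide +kernel

theorem gE_four : ∀ a b : ZMod 4, gE a b ≠ 0 → gE a b ^ 4 = 1 := by
  decide +kernel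

theorem gE_Q : ∀ a b : ZMod 4, Q a b → gE a b = 1 := by
  decide +kernel

/-- the character of `(ℤ[i]/(2+2i))ˣ` belonging to `y² = x³ - x` -/
noncomputable def chiE : GaussianInt →* ℂ where
  toFun z := tc (gE (z.re : ZMod 4) (z.im : ZMod 4))
  map_one' := by
    have h : gE (((1 : GaussianInt).re : ℤ) : ZMod 4) (((1 : GaussianInt).im : ℤ) : ZMod 4) = 1 := by
      rw [Zsqrtd.re_one, Zsqrtd.im_one]
      decide +kernel
    rw [h]
    simp [tc]
  map_mul' := by
    intro x y
    rw [re_mul', im_mul', ← tc_mul, ← gE_mul]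
    push_cast
    rfl

theorem chiE_apply (z : GaussianInt) : chiE z = tc (gE (z.re : ZMod 4) (z.im : ZMod 4)) := rfl

theorem tc_zero : tc 0 = 0 := by simp [tc]

theorem tc_one : tc 1 = 1 := by simp [tc]

theorem tc_eq_zero {z : GaussianInt} (h : tc z = 0) : z = 0 := by
  unfold tc at h
  have h1 := congrArg Complex.re h
  have h2 := congrArg Complex.im h
  simp only [Complex.add_re, Complex.mul_re, Complex.add_im, Complex.mul_im, Complex.intCast_re,
    Complex.intCast_im, Complex.I_re, Complex.I_im, Complex.zero_re, Complex.zero_im, mul_zero,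
    mul_one, sub_zero, add_zero, zero_add] at h1 h2
  exact Zsqrtd.ext (by exact_mod_cast h1) (by exact_mod_cast h2)

theorem tc_pow (z : GaussianInt) (n : ℕ) : tc (z ^ n) = tc z ^ n := by
  induction n with
  | zero => simp [tc_one]
  | succ n ih => rw [pow_succ, tc_mul, ih, pow_succ]

theorem chiE_ne (z : GaussianInt) : chiE z ≠ 0 ↔ z.norm % 2 = 1 := by
  rw [chiE_apply]
  have h1 : tc (gE (z.re : ZMod 4) (z.im : ZMod 4)) ≠ 0 ↔
      gE (z.re : ZMod 4) (z.im : ZMod 4) ≠ 0 := by
    constructor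
    · intro h h'
      exact h (by rw [h', tc_zero])
    · intro h h'
      exact h (tc_eq_zero h')
  rw [h1, gE_ne]
  have e1 : ((z.re : ZMod 4) + (z.im : ZMod 4) = 1) ↔ (z.re + z.im) % 4 = 1 := by
    have : ((1 : ℤ) : ZMod 4) = 1 := by norm_num
    rw [← this, ← Int.cast_add, ZMod.intCast_eq_intCast_iff']
    norm_num
  have e2 : ((z.re : ZMod 4) + (z.im : ZMod 4) = 3) ↔ (z.re + z.im) % 4 = 3 := by
    have : ((3 : ℤ) : ZMod 4) = 3 := by norm_num
    rw [← this, ← Int.cast_add, ZMod.intCast_eq_intCast_iff']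
    norm_num
  rw [e1, e2, norm_def']
  have e3 : (z.re ^ 2 + z.im ^ 2) % 2 = (z.re + z.im) % 2 := by
    have : z.re ^ 2 + z.im ^ 2 = (z.re + z.im) + (z.re * (z.re - 1) + z.im * (z.im - 1)) := by ring
    rw [this]
    have h2 : ∀ x : ℤ, (x * (x - 1)) % 2 = 0 := by
      intro x
      rcases Int.emod_two_eq_zero_or_one x with h | h
      · rw [Int.mul_emod, h]; simp
      · have : (x - 1) % 2 = 0 := by omega
        rw [Int.mul_emod, this]; simp
    have h3 := h2 z.re
    have h4 := h2 z.im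
    omega
  rw [e3]
  omega

theorem chiE_four (z : GaussianInt) (h : chiE z ≠ 0) : chiE z ^ 4 = 1 := by
  rw [chiE_apply] at h ⊢
  have h1 : gE (z.re : ZMod 4) (z.im : ZMod 4) ≠ 0 := fun h' => h (by rw [h', tc_zero])
  rw [← tc_pow, gE_four _ _ h1, tc_one]

theorem chiE_prim {z : GaussianInt} (h : prim z) : chiE z = 1 := by
  rw [chiE_apply, gE_Q _ _ ((prim_iff z).mp h), tc_one]

/-- the modulus -/
def qE : GaussianInt := ⟨2, 2⟩

theorem coprime_iff (z : GaussianInt) : IsCoprime z qE ↔ z.norm % 2 = 1 := by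
  constructor
  · intro h
    by_contra hc
    have h2 : (2 : ℤ) ∣ z.norm := by omega
    obtain ⟨u, v, huv⟩ := h
    have h3 : (u * z + v * qE).norm % 2 = 0 := by
      rw [norm_def']
      have e1 : (u * z + v * qE).re = u.re * z.re - u.im * z.im + (v.re * 2 - v.im * 2) := by
        rw [Zsqrtd.re_add, re_mul', re_mul']
        rfl
      have e2 : (u * z + v * qE).im = u.re * z.im + u.im * z.re + (v.re * 2 + v.im * 2) := by
        rw [Zsqrtd.im_add, im_mul', im_mul']
        rfl
      rw [e1, e2]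
      rw [norm_def'] at h2
      have h4 : ((u.re * z.re - u.im * z.im + (v.re * 2 - v.im * 2)) ^ 2 +
        (u.re * z.im + u.im * z.re + (v.re * 2 + v.im * 2)) ^ 2) =
        (u.re ^ 2 + u.im ^ 2) * (z.re ^ 2 + z.im ^ 2) + 2 * (
          (u.re * z.re - u.im * z.im) * (v.re * 2 - v.im * 2) +
          (u.re * z.im + u.im * z.re) * (v.re * 2 + v.im * 2) + 4 * v.re ^ 2 + 4 * v.im ^ 2) := by
        ring
      rw [h4]
      obtain ⟨k, hk⟩ := h2
      rw [hk]
      have : (u.re ^ 2 + u.im ^ 2) * (2 * k) + 2 * (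
          (u.re * z.re - u.im * z.im) * (v.re * 2 - v.im * 2) +
          (u.re * z.im + u.im * z.re) * (v.re * 2 + v.im * 2) + 4 * v.re ^ 2 + 4 * v.im ^ 2) =
          2 * ((u.re ^ 2 + u.im ^ 2) * k + (
          (u.re * z.re - u.im * z.im) * (v.re * 2 - v.im * 2) +
          (u.re * z.im + u.im * z.re) * (v.re * 2 + v.im * 2) + 4 * v.re ^ 2 + 4 * v.im ^ 2)) := by
        ring
      rw [this]
      exact Int.mul_emod_right 2 _
    rw [huv, Zsqrtd.norm_one] at h3
    omega
  · intro h
    apply isCoprime_of_norm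
    have h8 : qE.norm = 8 := by decide
    rw [h8, Int.isCoprime_iff_gcd_eq_one]
    have h2 : Int.gcd z.norm 2 = 1 := by
      rw [← Int.isCoprime_iff_gcd_eq_one]
      exact ⟨1, -(z.norm / 2), by omega⟩
    have h3 : IsCoprime z.norm (2 ^ 3) := by
      apply IsCoprime.pow_right
      rw [Int.isCoprime_iff_gcd_eq_one]
      exact h2
    have h4 : ((2 : ℤ) ^ 3) = 8 := by norm_num
    rw [h4, Int.isCoprime_iff_gcd_eq_one] at h3
    exact h3

theorem chiE_HC : HCk 1 qE chiE where
  q0 := by decide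
  per := by
    intro a b h
    obtain ⟨c, hc⟩ := h
    have hre : a.re = b.re + 2 * (c.re - c.im) := by
      have := congrArg Zsqrtd.re hc
      rw [Zsqrtd.re_sub, re_mul'] at this
      simp only [qE] at this
      linarith
    have him : a.im = b.im + 2 * (c.re + c.im) := by
      have := congrArg Zsqrtd.im hc
      rw [Zsqrtd.im_sub, im_mul'] at this
      simp only [qE] at this
      linarith
    rw [chiE_apply, chiE_apply, hre, him]
    have h1 := gE_add (b.re : ZMod 4) (b.im : ZMod 4) ((c.re : ZMod 4) + (c.im : ZMod 4))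
    have h2 : (2 : ZMod 4) * ((c.re : ZMod 4) - (c.im : ZMod 4)) =
        2 * ((c.re : ZMod 4) + (c.im : ZMod 4)) := by
      generalize (c.re : ZMod 4) = x
      generalize (c.im : ZMod 4) = y
      revert x y
      decide
    push_cast
    rw [h2, h1]
  supp := fun a => by rw [chiE_ne, coprime_iff]
  nrm := by
    intro a ha
    rw [coprime_iff, ← chiE_ne] at ha
    have h := chiE_four a ha
    have h1 : ‖chiE a‖ ^ 4 = 1 := by rw [← norm_pow, h, norm_one]
    exact (pow_eq_one_iff_of_nonneg (norm_nonneg _) (by norm_num)).mp h1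
  unit := by
    rw [chiE_apply]
    have h : gE ((0 : ℤ) : ZMod 4) ((1 : ℤ) : ZMod 4) = ⟨0, -1⟩ := by decide +kernel
    rw [h]
    simp [tc]
  prim := by
    intro d hd hqd
    refine ⟨⟨3, 0⟩, ?_, ?_, ?_⟩
    · rw [coprime_iff]
      decide
    · -- `d ∣ 2`
      obtain ⟨e, he⟩ := hd
      have hen : e.norm % 2 = 0 := by
        by_contra hc
        have hodd : e.norm % 2 = 1 := by omega
        have hcop : IsCoprime e qE := (coprime_iff e).mpr hodd
        have hu : IsUnit e := by
          have hdvd : e ∣ qE := ⟨d, by rw [he]; ring⟩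
          exact hcop.isUnit_of_dvd' dvd_rfl hdvd
        apply hqd
        obtain ⟨u, rfl⟩ := hu
        exact ⟨((u⁻¹ : (GaussianInt)ˣ) : GaussianInt), by rw [he, mul_assoc, Units.mul_inv, mul_one]⟩
      -- `e` is divisible by `1 + i`
      have h1 : ∃ e' : GaussianInt, e = ⟨1, 1⟩ * e' := by
        rw [norm_def'] at hen
        have hpar : (e.re + e.im) % 2 = 0 := by
          have h2 : ∀ x : ℤ, (x ^ 2) % 2 = x % 2 := by
            intro x
            rcases Int.emod_two_eq_zero_or_one x with h | h <;> rw [pow_two, Int.mul_emod, h] <;> simp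
          have h3 := h2 e.re
          have h4 := h2 e.im
          omega
        refine ⟨⟨(e.re + e.im) / 2, (e.im - e.re) / 2⟩, ?_⟩
        apply Zsqrtd.ext
        · rw [re_mul']; simp only; omega
        · rw [im_mul']; simp only; omega
      obtain ⟨e', rfl⟩ := h1
      have h2 : (⟨1, 1⟩ : GaussianInt) * 2 = ⟨1, 1⟩ * (d * e') := by
        have : (⟨1, 1⟩ : GaussianInt) * 2 = qE := by decide
        rw [this, he]
        ring
      have h3 : (2 : GaussianInt) = d * e' :=
        mul_left_cancel₀ (show (⟨1, 1⟩ : GaussianInt) ≠ 0 by decide) h2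
      have h4 : (⟨3, 0⟩ : GaussianInt) - 1 = 2 := by decide
      rw [h4]
      exact ⟨e', h3⟩
    · rw [chiE_apply]
      have h : gE ((3 : ℤ) : ZMod 4) ((0 : ℤ) : ZMod 4) = -1 := by decide +kernel
      rw [h]
      simp only [tc]
      intro h'
      have := congrArg Complex.re h'
      norm_num at this

end Pool.Agent.W354.HW
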