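import Pool.Agent.W354.HW.Chi
import Pool.Agent.W354.PK.FinK
import Pool.Agent.H304R2.EC.Points
import Pool.Agent.H304R2.EC.Coef
import Pool.Agent.H304R2.EC.EProd
import Pool.Agent.H304R3.HK.LgB

/-!
The Euler product of `L(s, ψ^k)`, `ψ` the Hecke character of `y² = x³ - x`, `k` odd.
-/

open Complex Filter Topology Set

namespace Pool.Agent.W354.HW

open Pool.Agent.H304R3.HK (tc bb CS UH ee bb_zero bb_two_odd)
open Pool.Agent.H304R3.HK.M3 (In b_mul b_rec b_one b_two b_odd)
open Pool.Agent.H304R2.EC (PS Sh Sh_inert PS_split an aE aE_eq an_inert)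
open Pool.Agent.H304R2.EC.EProd (local_factor)
open Pool.Agent.H304R2.EC.A1 (Q prim prim_iff re_mul' im_mul' isCoprime_of_norm norm_def')
open Pool.Agent.W354.PK (HCk psik bK LK tc_mul goodK uh_psik)
open Pool.Agent.W354.PK.TK (psik_apply)

theorem pow_apply' (χ : GaussianInt →* ℂ) (k : ℕ) (a : GaussianInt) : (χ ^ k) a = χ a ^ k := by
  rw [MonoidHom.pow_apply]

/-- the powers of a quartic character -/
theorem pow_HCk {q : GaussianInt} {χ : GaussianInt →* ℂ} (H : HCk 1 q χ)
    (h4 : ∀ a, χ a ≠ 0 → χ a ^ 4 = 1) {k : ℕ} (hk : Odd k) : HCk k q (χ ^ k) where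
  q0 := H.q0
  per := fun a b h => by rw [pow_apply', pow_apply', H.per a b h]
  supp := fun a => by
    rw [pow_apply', ← H.supp a]
    exact pow_ne_zero_iff (by rintro rfl; simp at hk)
  nrm := fun a h => by rw [pow_apply', norm_pow, H.nrm a h, one_pow]
  unit := by rw [pow_apply', H.unit, pow_one]
  prim := by
    intro d h1 h2
    obtain ⟨a, ha, hd, hne⟩ := H.prim d h1 h2
    refine ⟨a, ha, hd, fun h => hne ?_⟩
    rw [pow_apply'] at h
    have hχ : χ a ≠ 0 := (H.supp a).mpr ha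
    have e1 : orderOf (χ a) ∣ 4 := orderOf_dvd_of_pow_eq_one (h4 a hχ)
    have e2 : orderOf (χ a) ∣ k := orderOf_dvd_of_pow_eq_one h
    have hc : Nat.Coprime 4 k := by
      have h2k : Nat.Coprime 2 k := by
        rw [Nat.coprime_two_left]
        exact hk
      have : Nat.Coprime (2 ^ 2) k := h2k.pow_left 2
      simpa using this
    have e3 : orderOf (χ a) ∣ Nat.gcd 4 k := Nat.dvd_gcd e1 e2
    rw [hc.gcd_eq_one, Nat.dvd_one, orderOf_eq_one_iff] at e3
    exact e3

theorem chiE_pow_HC {k : ℕ} (hk : Odd k) : HCk k qE (chiE ^ k) := pow_HCk chiE_HC chiE_four hk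

theorem in_h {k : ℕ} (hk : Odd k) : In (psik k (chiE ^ k)) where
  z0 := bb_zero _ (uh_psik (chiE_pow_HC hk)).h0
  two := fun j m hm => bb_two_odd _ (uh_psik (chiE_pow_HC hk)).hi j m hm

theorem h_two {k : ℕ} (hk : Odd k) : psik k (chiE ^ k) ⟨1, 1⟩ = 0 := by
  rw [psik_apply]
  have h1 : (⟨1, 1⟩ : GaussianInt) ≠ 0 := by decide
  rw [if_neg h1, pow_apply']
  have h2 : chiE ⟨1, 1⟩ = 0 := by
    by_contra h
    rw [← ne_eq, chiE_ne] at h
    exact absurd h (by decide)
  rw [h2, zero_pow (by rintro rfl; simp at hk), zero_mul]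

theorem tc_nat (p : ℕ) : tc (p : GaussianInt) = (p : ℂ) := by
  simp [tc]

theorem chiE_nat1 (p : ℕ) (h : p % 4 = 1) : chiE (p : GaussianInt) = 1 := by
  apply chiE_prim
  unfold prim
  simp only [Zsqrtd.re_natCast, Zsqrtd.im_natCast]
  omega

theorem chiE_nat3 (p : ℕ) (h : p % 4 = 3) : chiE (p : GaussianInt) = -1 := by
  have h1 : chiE (-(p : GaussianInt)) = 1 := by
    apply chiE_prim
    unfold prim
    simp only [Zsqrtd.re_neg, Zsqrtd.im_neg, Zsqrtd.re_natCast, Zsqrtd.im_natCast]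
    omega
  have h2 : chiE (-1) = -1 := by
    rw [chiE_apply]
    have h : gE (((-1 : GaussianInt).re : ℤ) : ZMod 4) (((-1 : GaussianInt).im : ℤ) : ZMod 4) = -1 := by
      decide +kernel
    rw [h]
    simp [tc]
  have h3 : (p : GaussianInt) = (-1) * (-(p : GaussianInt)) := by ring
  rw [h3, map_mul, h1, h2, mul_one]

theorem ee_one {k : ℕ} (hk : Odd k) (p : ℕ) (hp : p.Prime) (h2 : p ≠ 2) :
    ee (psik k (chiE ^ k)) p = 1 := by
  have hp0 : (p : GaussianInt) ≠ 0 := by exact_mod_cast hp.ne_zero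
  have hpc : (p : ℂ) ≠ 0 := by exact_mod_cast hp.ne_zero
  have h3 : psik k (chiE ^ k) (p : GaussianInt) = chiE (p : GaussianInt) ^ k := by
    rw [psik_apply, if_neg hp0, tc_nat, pow_apply']
    have : ((‖(p : ℂ)‖ : ℝ) : ℂ) = (p : ℂ) := by
      rw [Complex.norm_natCast, Complex.ofReal_natCast]
    rw [this, div_self hpc, one_pow, mul_one]
  unfold ee
  rw [if_neg h2, h3]
  split_ifs with h
  · rw [chiE_nat3 p h, hk.neg_one_pow, neg_neg]
  · have : p % 4 = 1 := by
      have := hp.eq_two_or_odd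
      omega
    rw [chiE_nat1 p this, one_pow]

theorem sqrt_cast (p : ℕ) : ((Real.sqrt p : ℝ) : ℂ) = (p : ℂ) ^ (1 / 2 : ℂ) := by
  rw [Real.sqrt_eq_rpow, Complex.ofReal_cpow (Nat.cast_nonneg p)]
  push_cast
  rfl

/-- `b(p)` in terms of the Frobenius roots -/
theorem b_prime {k : ℕ} (hk : Odd k) (p : ℕ) (hp : p.Prime) (h2 : p ≠ 2) (α β : ℂ)
    (hs : α + β = (aE p : ℂ)) (hm : α * β = p) :
    bb (psik k (chiE ^ k)) p = (α ^ k + β ^ k) / ((Real.sqrt p : ℝ) : ℂ) ^ k := by
  have hodd : p % 2 = 1 := hp.eq_two_or_odd.resolve_left h2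
  rw [b_odd (in_h hk) p hodd]
  by_cases h3 : p % 4 = 3
  · rw [(Sh_inert _ p hp h3 0).1]
    rw [aE_eq p hp h2, an_inert p hp h3, Int.cast_zero] at hs
    have : α = -β := eq_neg_of_add_eq_zero_left hs
    rw [this, hk.neg_pow, neg_add_cancel, zero_div]
  · have h1 : p % 4 = 1 := by omega
    obtain ⟨a, b, hb0, hb, hab, hn, hPS⟩ := PS_split p hp h1
    have hne : ((a, b) : ℤ × ℤ) ≠ (a, -b) := by
      intro heq
      rw [Prod.mk.injEq] at heq
      omega
    have han : an p = 2 * a := by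
      unfold an
      rw [hPS, Finset.sum_pair hne]
      ring
    rw [aE_eq p hp h2, han] at hs
    set z : ℂ := (a : ℂ) + (b : ℂ) * I with hz
    set z' : ℂ := (a : ℂ) - (b : ℂ) * I with hz'
    have e1 : z + z' = α + β := by rw [hs, hz, hz']; push_cast; ring
    have e2 : z * z' = α * β := by
      rw [hm, hz, hz']
      have : ((p : ℤ) : ℂ) = ((a ^ 2 + b ^ 2 : ℤ) : ℂ) := by rw [hn]
      push_cast at this
      rw [this]
      linear_combination (-(b : ℂ) ^ 2) * Complex.I_sq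
    have hsum : Sh (psik k (chiE ^ k)) p = (z ^ k + z' ^ k) / ((Real.sqrt p : ℝ) : ℂ) ^ k := by
      unfold Sh
      rw [hPS, Finset.sum_pair hne]
      have hpr : ∀ c : ℤ, c ^ 2 = b ^ 2 → c % 2 = 0 → (a + c) % 4 = 1 →
          psik k (chiE ^ k) ⟨a, c⟩ = ((a : ℂ) + (c : ℂ) * I) ^ k / ((Real.sqrt p : ℝ) : ℂ) ^ k := by
        intro c hc hc2 hc4
        have h0 : (⟨a, c⟩ : GaussianInt) ≠ 0 := by
          intro h
          have h5 : a = 0 := congrArg Zsqrtd.re h
          have h6 : c = 0 := congrArg Zsqrtd.im h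
          rw [h5, h6] at hc4
          norm_num at hc4
        rw [psik_apply, if_neg h0, pow_apply']
        have h7 : chiE ⟨a, c⟩ = 1 := chiE_prim ⟨hc2, hc4⟩
        rw [h7, one_pow, one_mul, ← div_pow]
        have h8 : tc ⟨a, c⟩ = (a : ℂ) + (c : ℂ) * I := rfl
        have h9 : ‖tc ⟨a, c⟩‖ = Real.sqrt p := by
          rw [eq_comm, Real.sqrt_eq_iff_mul_self_eq (by positivity) (norm_nonneg _), ← sq,
            Pool.Agent.H304R3.HK.tc_star_mul, norm_def']
          simp only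
          rw [hc, hn]
          simp
        rw [h9, h8]
      rw [hpr b rfl hb hab, hpr (-b) (by ring) (by omega) (by omega), ← add_div]
      congr 2
      rw [hz']
      push_cast
      ring
    rw [hsum]
    congr 1
    have h4 : (α - z) * (α - z') = 0 := by
      have : (α - z) * (α - z') = α ^ 2 - (z + z') * α + z * z' := by ring
      rw [this, e1, e2]
      ring
    rcases mul_eq_zero.mp h4 with h5 | h5
    · have h6 : α = z := sub_eq_zero.mp h5
      have h7 : β = z' := by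
        rw [h6] at e1
        exact (add_left_cancel e1).symm
      rw [h6, h7]
    · have h6 : α = z' := sub_eq_zero.mp h5
      have h7 : β = z := by
        rw [h6, add_comm] at e1
        exact (add_left_cancel e1).symm
      rw [h6, h7, add_comm]

/-- the Euler product -/
theorem euler_k {k : ℕ} (hk : Odd k) (α β : ℕ → ℂ)
    (hαβ : ∀ p : ℕ, p.Prime → p ≠ 2 → α p + β p = (aE p : ℂ) ∧ α p * β p = p) (s : ℂ)
    (hs : 1 < s.re) :
    HasProd (fun p : {p : ℕ // p.Prime ∧ p ≠ 2} =>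
      ((1 - α p ^ k * ((p : ℕ) : ℂ) ^ (-(s + k / 2))) *
        (1 - β p ^ k * ((p : ℕ) : ℂ) ^ (-(s + k / 2))))⁻¹) (LK k (chiE ^ k) s) := by
  have hk0 : k ≠ 0 := by rintro rfl; simp at hk
  obtain ⟨A, hA, hgood⟩ := goodK
  have hsum := (hgood k qE (chiE ^ k) (by omega) (chiE_pow_HC hk)).2.1 s hs
  set h := psik k (chiE ^ k) with hh
  have hUH : UH h := uh_psik (chiE_pow_HC hk)
  have I : In h := in_h hk
  set f : ℕ → ℂ := fun n => bb h n * (n : ℂ) ^ (-s) with hf
  have hsum' : HasSum f (LK k (chiE ^ k) s) := hsum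
  have hf1 : f 1 = 1 := by simp [hf, b_one I]
  have hf0 : f 0 = 0 := by simp [hf, I.z0]
  have hmul : ∀ {m n : ℕ}, m.Coprime n → f (m * n) = f m * f n := by
    intro m n hmn
    simp only [hf]
    rw [b_mul I m n hmn]
    push_cast
    rw [Complex.natCast_mul_natCast_cpow]
    ring
  have hprod := EulerProduct.eulerProduct_hasProd hf1 hmul hsum'.summable.norm hf0
  rw [hsum'.tsum_eq] at hprod
  set g : {p : ℕ // p.Prime ∧ p ≠ 2} → Nat.Primes := fun p => ⟨p.1, p.2.1⟩ with hg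
  have hginj : Function.Injective g := by
    intro a b hab
    apply Subtype.ext
    have := congrArg (fun x : Nat.Primes => (x : ℕ)) hab
    simpa [hg] using this
  have hsupp : ∀ p : Nat.Primes, p ∉ Set.range g → ∑' e, f ((p : ℕ) ^ e) = 1 := by
    intro p hp
    have h2 : (p : ℕ) = 2 := by
      by_contra h2
      exact hp ⟨⟨p.1, p.2, h2⟩, rfl⟩
    have hval : ∀ e, e ≠ 0 → f ((p : ℕ) ^ e) = 0 := by
      intro e he
      simp only [hf]
      rw [h2, b_two I, hh, h_two hk, zero_pow he, zero_mul]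
    rw [tsum_eq_single 0 hval]
    simpa using hf1
  have hprod2 := (hginj.hasProd_iff hsupp).mpr hprod
  have hfun : ((fun p : Nat.Primes => ∑' e, f ((p : ℕ) ^ e)) ∘ g) =
      fun p : {p : ℕ // p.Prime ∧ p ≠ 2} =>
      ((1 - α p ^ k * ((p : ℕ) : ℂ) ^ (-(s + k / 2))) *
        (1 - β p ^ k * ((p : ℕ) : ℂ) ^ (-(s + k / 2))))⁻¹ := by
    funext p
    obtain ⟨p, hp, h2⟩ := p
    simp only [hg, Function.comp_apply]
    change ∑' e, f (p ^ e) = _
    have hp0 : (p : ℂ) ≠ 0 := Nat.cast_ne_zero.mpr hp.ne_zero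
    obtain ⟨hα, hβ⟩ := hαβ p hp h2
    set X : ℂ := (p : ℂ) ^ (-s) with hX
    have hval : ∀ e, f (p ^ e) = bb h (p ^ e) * X ^ e := by
      intro e
      simp only [hf]
      congr 1
      rw [hX]
      induction e with
      | zero => simp
      | succ e ih =>
        rw [pow_succ, pow_succ, ← ih]
        push_cast
        rw [show ((p : ℂ) ^ e) = ((p ^ e : ℕ) : ℂ) by push_cast; rfl,
          Complex.natCast_mul_natCast_cpow]
    have key := local_factor (fun e => f (p ^ e)) (bb h p * X) (X ^ 2)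
      (by simpa using hf1) (by
        have := hval 1
        simp only [pow_one] at this ⊢
        exact this) (by
        intro e
        simp only [hval]
        rw [b_rec hUH I p hp e, hh, ee_one hk p hp h2]
        ring) (hsum'.summable.comp_injective (Nat.pow_right_injective hp.two_le))
    rw [eq_comm, inv_eq_iff_eq_inv]
    have hc0 : ((Real.sqrt p : ℝ) : ℂ) ≠ 0 := by
      rw [sqrt_cast]
      exact (Complex.cpow_ne_zero_iff_of_exponent_ne_zero (by norm_num)).mpr hp0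
    have hc2 : ((Real.sqrt p : ℝ) : ℂ) ^ 2 = p := by
      rw [← Complex.ofReal_pow, Real.sq_sqrt (Nat.cast_nonneg p), Complex.ofReal_natCast]
    have hcX : (p : ℂ) ^ (-(s + k / 2)) = X / ((Real.sqrt p : ℝ) : ℂ) ^ k := by
      rw [sqrt_cast, ← Complex.cpow_nat_mul, hX, neg_add, Complex.cpow_add _ _ hp0,
        Complex.cpow_neg _ ((k : ℂ) / 2), div_eq_mul_inv]
      congr 3
      ring
    have hck : ((Real.sqrt p : ℝ) : ℂ) ^ k ≠ 0 := pow_ne_zero _ hc0
    have hxy : α p ^ k * β p ^ k = ((Real.sqrt p : ℝ) : ℂ) ^ k * ((Real.sqrt p : ℝ) : ℂ) ^ k := by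
      rw [← mul_pow, ← mul_pow, hβ, ← sq, hc2]
    have hb : bb h p = (α p ^ k + β p ^ k) / ((Real.sqrt p : ℝ) : ℂ) ^ k :=
      b_prime hk p hp h2 (α p) (β p) hα hβ
    have hfac : (1 - α p ^ k * (p : ℂ) ^ (-(s + k / 2))) * (1 - β p ^ k * (p : ℂ) ^ (-(s + k / 2))) =
        1 - bb h p * X + X ^ 2 := by
      rw [hcX, hb]
      field_simp
      linear_combination (X ^ 2) * hxy
    rw [hfac]
    exact eq_inv_of_mul_eq_one_left key
  rw [hfun] at hprod2
  exact hprod2

end Pool.Agent.W354.HW
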