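import Pool.Agent.W354.FK.Weighted
import Pool.Agent.W354.HW.Euler
import Pool.Agent.W354.HW.Count

/-!
The L-functions of the odd cohomology of the powers of `y² = x³ - x`.
-/

open Complex Filter Topology Set MeasureTheory
open H370 (zset mult NN Nd Ns)

set_option maxHeartbeats 4000000

namespace Pool.Agent.W354.HW

open Pool.Agent.H304R3.HK (tc one_le_norm_tc tc_star_mul)
open Pool.Agent.W354.PK (HCk LK aK bK lck lck_logC goodK)
open Pool.Agent.W354.FK (Wt cG cG_wt fk_weighted)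
open Pool.Agent.H304R2.EC (aE)

/-- `L(s, ψ^k)` -/
noncomputable def FE (k : ℕ) : ℂ → ℂ := LK k (chiE ^ k)

/-- the multiplicities `C(g, m-l) C(g, m+1+l)` -/
def mu (g m l : ℕ) : ℕ := g.choose (m - l) * g.choose (m + 1 + l)

/-- the same as a sequence of real weights -/
noncomputable def muW (g m l : ℕ) : ℝ := if l ≤ m then (mu g m l : ℝ) else 0

/-- half of `min (i, 2g - i)` -/
def mm (g m : ℕ) : ℕ := min m (g - 1 - m)

theorem muW_eq (g m : ℕ) (hm : m < g) : muW g m = cG g (mm g m) := by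
  funext l
  unfold muW mu cG mm
  by_cases h : 2 * m + 1 ≤ g
  · have e : min m (g - 1 - m) = m := by omega
    rw [e]
  · have e : min m (g - 1 - m) = g - 1 - m := by omega
    rw [e]
    by_cases hl : l ≤ g - 1 - m
    · rw [if_pos hl, if_pos (by omega)]
      congr 1
      have e1 : g.choose (g - 1 - m - l) = g.choose (m + 1 + l) := by
        have : g - 1 - m - l = g - (m + 1 + l) := by omega
        rw [this, Nat.choose_symm (by omega)]
      have e2 : g.choose (g - 1 - m + 1 + l) = g.choose (m - l) := by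
        have : g - 1 - m + 1 + l = g - (m - l) := by omega
        rw [this, Nat.choose_symm (by omega)]
      rw [e1, e2, mul_comm]
    · rw [if_neg hl]
      split_ifs with h1
      · have : g.choose (m + 1 + l) = 0 := Nat.choose_eq_zero_of_lt (by omega)
        rw [this]
        simp
      · rfl

theorem muW_wt (g m : ℕ) (hm : m < g) : Wt (mm g m) (muW g m) := by
  rw [muW_eq g m hm]
  exact cG_wt g _ (by unfold mm; omega)

theorem chi_shift (a j : ℕ) : chiE ^ (2 * a + 1 + 4 * j) = chiE ^ (2 * a + 1) := by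
  ext z
  rw [pow_apply', pow_apply']
  by_cases h : chiE z = 0
  · rw [h, zero_pow (by omega), zero_pow (by omega)]
  · rw [pow_add, pow_mul, chiE_four z h, one_pow, mul_one]

theorem FE_eq (a j : ℕ) : FE (2 * (a + 2 * j) + 1) = LK (2 * a + 1 + 4 * j) (chiE ^ (2 * a + 1)) := by
  unfold FE
  have : 2 * (a + 2 * j) + 1 = 2 * a + 1 + 4 * j := by ring
  rw [this, chi_shift]

theorem sum_parity (f : ℕ → ℝ) (M : ℕ) : ∑ l ∈ Finset.range (2 * M), f l =
    ∑ j ∈ Finset.range M, f (0 + 2 * j) + ∑ j ∈ Finset.range M, f (1 + 2 * j) := by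
  induction M with
  | zero => simp
  | succ M ih =>
    have : 2 * (M + 1) = 2 * M + 1 + 1 := by ring
    rw [this, Finset.sum_range_succ, Finset.sum_range_succ, ih, Finset.sum_range_succ _ M,
      Finset.sum_range_succ _ M]
    have e1 : 0 + 2 * M = 2 * M := by ring
    have e2 : 1 + 2 * M = 2 * M + 1 := by ring
    rw [e1, e2]
    ring

theorem sum_split (g m : ℕ) (hm : m < g) (f : ℕ → ℝ) :
    ∑ l ∈ Finset.range (m + 1), (mu g m l : ℝ) * f l =
      ∑ j ∈ Finset.range (mm g m + 1), muW g m (0 + 2 * j) * f (0 + 2 * j) +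
      ∑ j ∈ Finset.range (mm g m + 1), muW g m (1 + 2 * j) * f (1 + 2 * j) := by
  rw [← sum_parity (fun l => muW g m l * f l) (mm g m + 1)]
  have hz : ∀ l, mm g m < l → muW g m l = 0 := (muW_wt g m hm).zero
  have hmm : mm g m ≤ m := by unfold mm; omega
  have e1 : ∑ l ∈ Finset.range (m + 1), (mu g m l : ℝ) * f l =
      ∑ l ∈ Finset.range (m + 1), muW g m l * f l := by
    refine Finset.sum_congr rfl fun l hl => ?_
    unfold muW
    rw [if_pos (by have := Finset.mem_range.mp hl; omega)]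
  rw [e1]
  have e2 : ∀ M, mm g m + 1 ≤ M → ∑ l ∈ Finset.range M, muW g m l * f l =
      ∑ l ∈ Finset.range (mm g m + 1), muW g m l * f l := by
    intro M hM
    symm
    refine Finset.sum_subset (Finset.range_mono hM) (fun l _ hl => ?_)
    rw [Finset.mem_range, not_lt] at hl
    rw [hz l (by omega), zero_mul]
  rw [e2 (m + 1) (by omega), e2 (2 * (mm g m + 1)) (by omega)]

/-- the weighted inequality -/
theorem main_odd : ∃ T0 η : ℝ, 1 ≤ T0 ∧ 0 < η ∧ ∀ (g m : ℕ) (T : ℝ), m < g → T0 ≤ T →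
    ((min (2 * m + 1) (2 * g - (2 * m + 1)) : ℕ) : ℝ) ^ (1 / 2 - η) ≤ T →
    T ≤ ((min (2 * m + 1) (2 * g - (2 * m + 1)) : ℕ) : ℝ) ^ (1 / 2 + η) →
    (0.6725 * ∑ l ∈ Finset.range (m + 1), (mu g m l : ℝ) * (NN (FE (2 * l + 1)) T (2 * T) : ℝ) ≤
      ∑ l ∈ Finset.range (m + 1), (mu g m l : ℝ) * (Ns (FE (2 * l + 1)) T (2 * T) : ℝ)) ∧
    0 < ∑ l ∈ Finset.range (m + 1), (mu g m l : ℝ) * (NN (FE (2 * l + 1)) T (2 * T) : ℝ) := by
  obtain ⟨T0, η, hT0, hη, hη1, H⟩ := fk_weighted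
  refine ⟨max T0 (8 ^ (1 / η)), η, le_max_of_le_left hT0, hη, ?_⟩
  intro g m T hm hT h1 h2
  have hT0' : T0 ≤ T := (le_max_left _ _).trans hT
  have hT1 : 1 ≤ T := hT0.trans hT0'
  have h8 : (8 : ℝ) ^ (1 / η) ≤ T := (le_max_right _ _).trans hT
  have hmin : min (2 * m + 1) (2 * g - (2 * m + 1)) = 2 * mm g m + 1 := by
    unfold mm; omega
  rw [hmin] at h1 h2
  have hq : ‖tc qE‖ ≤ T ^ η := by
    have e1 : (8 : ℝ) ≤ T ^ η := by
      have := Real.rpow_le_rpow (by positivity) h8 hη.le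
      rw [← Real.rpow_mul (by norm_num), one_div, inv_mul_cancel₀ hη.ne', Real.rpow_one] at this
      exact this
    have e2 : ‖tc qE‖ ^ 2 = 8 := by
      rw [tc_star_mul]
      have : qE.norm = 8 := by decide
      rw [this]
      norm_num
    have e3 := norm_nonneg (tc qE)
    nlinarith
  rw [sum_split g m hm (fun l => (NN (FE (2 * l + 1)) T (2 * T) : ℝ)),
    sum_split g m hm (fun l => (Ns (FE (2 * l + 1)) T (2 * T) : ℝ))]
  obtain ⟨k0, -, k2, k3⟩ := H 0 qE (chiE ^ (2 * 0 + 1)) T (mm g m) (muW g m) (muW_wt g m hm)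
    (by omega) (chiE_pow_HC (by decide)) hT0' hq h1 h2
  obtain ⟨k1, -, k4, -⟩ := H 1 qE (chiE ^ (2 * 1 + 1)) T (mm g m) (muW g m) (muW_wt g m hm)
    (by omega) (chiE_pow_HC (by decide)) hT0' hq h1 h2
  have hlT : 0 < Real.log T := Real.log_pos (by linarith)
  have hW0 : 0 < muW g m 0 := by
    unfold muW mu
    rw [if_pos (Nat.zero_le m)]
    have h3 : 0 < g.choose (m - 0) * g.choose (m + 1 + 0) :=
      Nat.mul_pos (Nat.choose_pos (by omega)) (Nat.choose_pos (by omega))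
    exact_mod_cast h3
  have hW1 : 0 < muW g m 0 * (T * Real.log T / 256) := by positivity
  simp only [FE_eq]
  constructor
  · rw [mul_add]
    exact add_le_add k0 k1
  · exact add_pos (lt_of_lt_of_le hW1 k2) (lt_of_lt_of_le hW1 k4)

/-- the L-function of `H^i(E^g)`, `i = 2m+1`, shifted to the critical line `Re s = 1/2` -/
noncomputable def LL0 (g m : ℕ) (s : ℂ) : ℂ :=
  ∏ l ∈ Finset.range (m + 1), FE (2 * l + 1) s ^ mu g m l

theorem odd_l (l : ℕ) : Odd (2 * l + 1) := ⟨l, rfl⟩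

theorem FE_diff (l : ℕ) : Differentiable ℂ (FE (2 * l + 1)) := by
  obtain ⟨A, hA, hgood⟩ := goodK
  exact (hgood (2 * l + 1) qE _ (by omega) (chiE_pow_HC (odd_l l))).1

theorem FE_fin (l : ℕ) (T1 T2 : ℝ) (hT : 1 ≤ T1) : (zset (FE (2 * l + 1)) T1 T2).Finite := by
  obtain ⟨A, hA, hgood⟩ := goodK
  exact Pool.Agent.W354.E.zset_finite_E hA
    (lck_logC (2 * l + 1) (one_le_norm_tc (show qE ≠ 0 by decide)))
    (hgood (2 * l + 1) qE _ (by omega) (chiE_pow_HC (odd_l l))).2.2.2 T1 T2 hT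

theorem FE_order (l : ℕ) (s : ℂ) : analyticOrderAt (FE (2 * l + 1)) s ≠ ⊤ := by
  obtain ⟨A, hA, hgood⟩ := goodK
  have hG := (hgood (2 * l + 1) qE _ (by omega) (chiE_pow_HC (odd_l l))).2.2.2
  refine H370.Loc.order_ne_top (K := Set.univ) isPreconnected_univ (c := ⟨2, 1⟩)
    (fun z _ => (FE_diff l).analyticAt z) (Set.mem_univ _) ?_ (Set.mem_univ _)
  exact hG.nzr ⟨2, 1⟩ (by norm_num) (by norm_num)

theorem LL0_diff (g m : ℕ) : Differentiable ℂ (LL0 g m) := by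
  unfold LL0
  refine Differentiable.fun_finsetProd fun l _ => ?_
  exact (FE_diff l).pow _

theorem LL0_NN (g m : ℕ) (T : ℝ) (hT : 1 ≤ T) : cnt (LL0 g m) (strip T (2 * T)) =
    ∑ l ∈ Finset.range (m + 1), mu g m l * NN (FE (2 * l + 1)) T (2 * T) := by
  unfold LL0
  rw [cnt_prod (Finset.range (m + 1)) (fun l => FE (2 * l + 1)) (mu g m)
    (fun l _ s _ => (FE_diff l).analyticAt s) (fun l _ s _ => FE_order l s)
    (fun l _ => by rw [← zset_eq]; exact FE_fin l T (2 * T) hT)]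
  exact Finset.sum_congr rfl fun l _ => by rw [NN_eq]

theorem LL0_Ns (g m : ℕ) (T : ℝ) (hT : 1 ≤ T) :
    ∑ l ∈ Finset.range (m + 1), mu g m l * Ns (FE (2 * l + 1)) T (2 * T) ≤
      cnt (LL0 g m) (line T (2 * T)) := by
  unfold LL0
  have hsub : ∀ l, {s : ℂ | s ∈ line T (2 * T) ∧ FE (2 * l + 1) s = 0} ⊆
      zset (FE (2 * l + 1)) T (2 * T) := by
    rintro l s ⟨⟨h1, h2, h3⟩, h4⟩
    exact ⟨by rw [h1]; norm_num, by rw [h1]; norm_num, h2, h3, h4⟩
  rw [cnt_prod (Finset.range (m + 1)) (fun l => FE (2 * l + 1)) (mu g m)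
    (fun l _ s _ => (FE_diff l).analyticAt s) (fun l _ s _ => FE_order l s)
    (fun l _ => (FE_fin l T (2 * T) hT).subset (hsub l))]
  exact Finset.sum_le_sum fun l _ => Nat.mul_le_mul_left _ (Ns_le _ _ _ (FE_fin l T (2 * T) hT))

theorem LL0_fin (g m : ℕ) (T : ℝ) (hT : 1 ≤ T) :
    {s : ℂ | s ∈ strip T (2 * T) ∧ LL0 g m s = 0}.Finite := by
  refine zeros_prod_finite (Finset.range (m + 1)) (fun l => FE (2 * l + 1)) (mu g m) fun l _ => ?_
  rw [← zset_eq]
  exact FE_fin l T (2 * T) hT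

/-- the local factor -/
noncomputable def locE (g i : ℕ) (α β : ℂ) (p : ℕ) (s : ℂ) : ℂ :=
  ∏ a ∈ Finset.range (i + 1),
    (1 - α ^ a * β ^ (i - a) * (p : ℂ) ^ (-s)) ^ (g.choose a * g.choose (i - a))

theorem locE_eq (g m : ℕ) (α β : ℂ) (p : ℕ) (hp : p ≠ 0) (hαβ : α * β = p) (s : ℂ) :
    (locE g (2 * m + 1) α β p s)⁻¹ = ∏ l ∈ Finset.range (m + 1),
      (((1 - α ^ (2 * l + 1) * (p : ℂ) ^ (-(s - ((2 * m + 1 : ℕ) : ℂ) / 2 +
          ((2 * l + 1 : ℕ) : ℂ) / 2))) *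
        (1 - β ^ (2 * l + 1) * (p : ℂ) ^ (-(s - ((2 * m + 1 : ℕ) : ℂ) / 2 +
          ((2 * l + 1 : ℕ) : ℂ) / 2))))⁻¹) ^ mu g m l := by
  have hp0 : (p : ℂ) ≠ 0 := Nat.cast_ne_zero.mpr hp
  unfold locE
  have e0 : 2 * m + 1 + 1 = (m + 1) + (m + 1) := by ring
  rw [e0, Finset.prod_range_add, ← Finset.prod_range_reflect _ (m + 1), ← Finset.prod_mul_distrib,
    ← Finset.prod_inv_distrib]
  refine Finset.prod_congr rfl fun l hl => ?_
  have hl' : l ≤ m := by have := Finset.mem_range.mp hl; omega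
  have e1 : m + 1 - 1 - l = m - l := by omega
  have e2 : 2 * m + 1 - (m - l) = m + 1 + l := by omega
  have e3 : 2 * m + 1 - (m + 1 + l) = m - l := by omega
  rw [e1, e2, e3]
  have e4 : g.choose (m + 1 + l) * g.choose (m - l) = mu g m l := by
    unfold mu; ring
  have e5 : g.choose (m - l) * g.choose (m + 1 + l) = mu g m l := rfl
  rw [e4, e5, ← mul_pow, inv_pow]
  congr 2
  have hX : (p : ℂ) ^ (-(s - ((2 * m + 1 : ℕ) : ℂ) / 2 + ((2 * l + 1 : ℕ) : ℂ) / 2)) =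
      (α * β) ^ (m - l) * (p : ℂ) ^ (-s) := by
    rw [hαβ, ← Complex.cpow_natCast, ← Complex.cpow_add _ _ hp0]
    congr 1
    push_cast [Nat.cast_sub hl']
    ring
  have e6 : m + 1 + l = (m - l) + (2 * l + 1) := by omega
  rw [hX, e6, pow_add α, pow_add β, mul_pow]
  ring

/-- the Euler product -/
theorem LL0_prod (g m : ℕ) (α β : ℕ → ℂ)
    (hαβ : ∀ p : ℕ, p.Prime → p ≠ 2 → α p + β p = (aE p : ℂ) ∧ α p * β p = p) (s : ℂ)
    (hs : 1 + ((2 * m + 1 : ℕ) : ℝ) / 2 < s.re) :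
    HasProd (fun p : {p : ℕ // p.Prime ∧ p ≠ 2} => (locE g (2 * m + 1) (α p) (β p) p s)⁻¹)
      (LL0 g m (s - ((2 * m + 1 : ℕ) : ℂ) / 2)) := by
  have hfun : (fun p : {p : ℕ // p.Prime ∧ p ≠ 2} => (locE g (2 * m + 1) (α p) (β p) p s)⁻¹) =
      fun p : {p : ℕ // p.Prime ∧ p ≠ 2} => ∏ l ∈ Finset.range (m + 1),
      (((1 - α p ^ (2 * l + 1) * ((p : ℕ) : ℂ) ^ (-(s - ((2 * m + 1 : ℕ) : ℂ) / 2 +
          ((2 * l + 1 : ℕ) : ℂ) / 2))) *
        (1 - β p ^ (2 * l + 1) * ((p : ℕ) : ℂ) ^ (-(s - ((2 * m + 1 : ℕ) : ℂ) / 2 +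
          ((2 * l + 1 : ℕ) : ℂ) / 2))))⁻¹) ^ mu g m l := by
    funext p
    exact locE_eq g m (α p) (β p) p p.2.1.ne_zero (hαβ p p.2.1 p.2.2).2 s
  rw [hfun]
  unfold LL0
  refine hasProd_prod fun l _ => ?_
  have hre : (1 : ℝ) < (s - ((2 * m + 1 : ℕ) : ℂ) / 2).re := by
    have : (((2 * m + 1 : ℕ) : ℂ) / 2).re = ((2 * m + 1 : ℕ) : ℝ) / 2 := by
      rw [show (((2 * m + 1 : ℕ) : ℂ) / 2) = (((((2 * m + 1 : ℕ) : ℝ)) / 2 : ℝ) : ℂ) by push_cast; rfl]
      exact Complex.ofReal_re _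
    rw [Complex.sub_re, this]
    linarith
  have h := euler_k (odd_l l) α β hαβ (s - ((2 * m + 1 : ℕ) : ℂ) / 2) hre
  generalize mu g m l = c
  induction c with
  | zero => simpa using hasProd_one
  | succ c ih =>
    have := ih.mul h
    simp only [pow_succ]
    exact this

end Pool.Agent.W354.HW
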